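import Pool.Agent.Q308.NR.Final

/-!
# It is consistent that `𝔫𝔬 < 𝔠`

Let `T` be the tree of bounded well-ordered sets of rationals of the ground model, and let `C` be
`Col(ω₁, T) × Add(ω, (2^ℵ₀)⁺)`.  In the extension by `C`, the tree `T` has height `ω₁`, no cofinal
branch and cardinality `< 𝔠`, but it cannot be specialized without adding reals: the reals of the
ground model are not meager in the extension by `C`, and a specializing function in a further
extension with the same reals would yield, for some countable subtree of `T` of the ground model,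
countably many dense sets which are met by no branch of the ground model.
-/

namespace Pool.Agent.Results.MP_31a5ad_lc.NoBelowContinuumForced

open Ordinal Cardinal Set Pool.Agent.Q308.NR

/-- **Main theorem (ZFC).**  There are a forcing notion `C` and a tree `T` of height `ω₁` such that
every condition of `C` forces: `ω₁` of the ground model is still uncountable (so `T` still has
height `ω₁`), `T` has no cofinal branch, `|T| < 2^ℵ₀`, and `T` cannot be specialized by a forcing
notion which adds no reals.  Hence `C` forces `𝔫𝔬 ≤ |T| < 𝔠`. -/
theorem result : ∃ (C : Type) (_ : Preorder C) (T : Type) (_ : PartialOrder T),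
    Nonempty C ∧ IsTree T ∧ HasHeight T ω₁ ∧
      ∀ c : C, ForcesOmegaOneUncountable c ∧
        (∀ σ : T → Set C, ¬ ForcesCofinalBranch c σ) ∧
        ForcesCardLtContinuum c T ∧
        ¬ MaybeSpecializable c T := by
  refine ⟨Col SQ × Pool.Agent.Q308.NR.Add (K × ℕ), inferInstance, SQ, inferInstance, ?_, SQ.isTree, SQ.hasHeight,
    fun c => ⟨omegaOne_uncountable sys_colAdd c, no_cofinal_branch sys_colAdd c, card_lt c, ?_⟩⟩
  · obtain ⟨w, _⟩ := rk_surj (α := 0) (Ordinal.omega_pos 1)
    exact ⟨(⟨fun _ => none, w, fun _ _ => rfl⟩, ⟨∅, fun a ha => absurd ha (Finset.notMem_empty a)⟩)⟩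
  · rintro ⟨Q, _, π, hπ, q₀, _, hN, hsp⟩
    exact not_special sys_colAdd hπ hN hsp

end Pool.Agent.Results.MP_31a5ad_lc.NoBelowContinuumForced
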